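import Mathlib

open Set Filter Topology OnePoint

namespace Pool.Agent.Results.MP_496bc7_gt.NotOpen

/-- `(S, supp)` is a supp-perfect supp-semigroup whose supports cover `X`. -/
def SuppPerfect {S X : Type} [Semigroup S] (supp : S → Set X) : Prop :=
  (∀ f g, supp (f * g) ⊆ supp f ∪ supp g) ∧ (∀ f g, supp f ∩ supp g = ∅ → f * g = g * f) ∧
  (⋃ f, supp f) = univ ∧ (∀ f, (supp f).Finite) ∧ ∀ F : Set X, F.Finite →
    {f | supp f ⊆ F}.Finite ∧ {f | supp f ⊆ F} = {g | ∀ t, supp t ⊆ Fᶜ → g * t = t * g}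

/-- The semi-Zariski topology of a semigroup; `WithOne S` is `S` with an external identity. -/
def semiZariski (S : Type) [Semigroup S] : TopologicalSpace S := TopologicalSpace.generateFrom
  {U | (∃ a b c : WithOne S, U = {s : S | a * s * b ≠ c}) ∨
    ∃ a b c d : WithOne S, U = {s : S | a * s * b ≠ c * s * d}}

lemma le {S : Type} [Semigroup S] [τ : TopologicalSpace S] [T2Space S] [ContinuousMul S] :
    τ ≤ semiZariski S := by
  have k : ∀ a b : WithOne S, ∃ φ : S → S, Continuous φ ∧ ∀ s : S, a * s * b = φ s := fun a b => by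
    induction a using WithOne.recOneCoe <;> induction b using WithOne.recOneCoe
    · exact ⟨id, continuous_id, by simp⟩
    · rename_i b
      exact ⟨(· * b), by fun_prop, by simp⟩
    · rename_i a
      exact ⟨(a * ·), by fun_prop, by simp⟩
    · rename_i a b
      exact ⟨(a * · * b), by fun_prop, by simp⟩
  refine le_generateFrom ?_
  rintro _ (⟨a, b, c, rfl⟩ | ⟨a, b, c, d, rfl⟩)
  · obtain ⟨φ, h, e⟩ := k a b
    induction c using WithOne.recOneCoe
    · simp [e]
    · simpa [e] using isOpen_ne_fun h continuous_const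
  · obtain ⟨φ, h, e⟩ := k a b
    obtain ⟨ψ, h', e'⟩ := k c d
    simpa [e, e'] using isOpen_ne_fun h h'

abbrev T := OnePoint ℕ ⊕ (ℕ × ℕ × ℕ) ⊕ Bool

def E : T → T → Prop
  | .inl ∞, .inr (.inl (_, k, _)) => k = 0
  | .inl (m : ℕ), .inr (.inl (n, k, j)) => (k = 0 ∧ n + k + j + 1 ≤ m) ∨ (1 ≤ k ∧ k ≤ m ∧ m = n)
  | .inr (.inl (n, k, j)), .inr (.inl (n', k', j')) =>
    n + k + j < n' + k' + j' ∧ (k = k' ∨ n + k + j + 1 = k')
  | _, _ => False

def sp : T → Set ℕ
  | .inl ∞ => {0}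
  | .inl (m : ℕ) => Icc 1 m
  | .inr (.inl (n, k, j)) => {k, n + k + j + 1}
  | .inr (.inr _) => ∅

open Classical in
noncomputable instance : Semigroup T where
  mul s t := .inr (.inr (decide (E s t)))
  mul_assoc s t u := by
    show Sum.inr (Sum.inr (decide (E (.inr (.inr _)) u))) =
      Sum.inr (Sum.inr (decide (E s (.inr (.inr _)))))
    rcases s with (_ | _) | _ | _ <;> simp [E]

open Classical in
lemma md (s t : T) : s * t = .inr (.inr (decide (E s t))) := rfl

lemma K (s t : T) (h : E s t) : ∃ p, p ∈ sp s ∧ p ∈ sp t := by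
  rcases s with (_ | m) | ⟨n, k, j⟩ | _ <;> rcases t with (_ | _) | ⟨n', k', j'⟩ | _ <;>
    try exact h.elim
  · exact ⟨k', h, .inl rfl⟩
  · exact h.elim (fun h => ⟨_, ⟨by omega, h.2⟩, .inr rfl⟩) fun h => ⟨k', ⟨h.1, h.2.1⟩, .inl rfl⟩
  · exact ⟨k', h.2.imp Eq.symm Eq.symm, .inl rfl⟩

lemma co (s t : T) (h : sp s ∩ sp t = ∅) : s * t = t * s := by
  have a : ¬ E s t := fun e => let ⟨_, h1, h2⟩ := K _ _ e; h.subset ⟨h1, h2⟩
  have b : ¬ E t s := fun e => let ⟨_, h1, h2⟩ := K _ _ e; h.subset ⟨h2, h1⟩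
  simp [md, a, b]

lemma partner (g : T) (p N : ℕ) (h : p ∈ sp g) :
    ∃ t q, N < q ∧ sp t = {p, q} ∧ E g t ∧ ¬ E t g := by
  rcases g with (_ | m) | ⟨n, k, j⟩ | _
  · exact ⟨.inr (.inl (0, p, N)), _, by omega, rfl, h, id⟩
  · exact ⟨.inr (.inl (m, p, N)), _, by omega, rfl, .inr ⟨h.1, h.2, rfl⟩, id⟩
  · exact ⟨.inr (.inl (0, p, N + n + k + j + 1)), _, by omega, rfl,
      ⟨by omega, h.imp Eq.symm Eq.symm⟩, fun h => by have := h.1; omega⟩
  · exact h.elim

lemma perf : SuppPerfect sp := by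
  refine ⟨fun _ _ => empty_subset _, co, eq_univ_of_forall fun p =>
    mem_iUnion.2 ⟨.inr (.inl (0, p, 0)), .inl rfl⟩, ?_, fun F hF => ?_⟩
  · rintro ((_ | m) | ⟨n, k, j⟩ | _)
    exacts [finite_singleton _, finite_Icc _ _, (finite_singleton _).insert _, finite_empty]
  obtain ⟨N, hN⟩ := hF.bddAbove
  refine ⟨(((((finite_Iic N).image fun m : ℕ => (.inl m : T)).insert (.inl ∞)).union
    (((finite_Iic N).prod ((finite_Iic N).prod (finite_Iic N))).image
      fun x => (.inr (.inl x) : T))).union (finite_range fun b => (.inr (.inr b) : T))).subset ?_,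
    Subset.antisymm (fun g hg t ht => co _ _ (eq_empty_of_forall_notMem fun p hp =>
      ht hp.2 (hg hp.1))) fun g hg p hp => by_contra fun hp' => ?_⟩
  · rintro ((_ | m) | ⟨n, k, j⟩ | _) h
    · exact .inl (.inl (.inl rfl))
    · refine .inl (.inl (.inr ⟨m, ?_, rfl⟩))
      rcases m with _ | m
      exacts [N.zero_le, hN (h ⟨by omega, le_rfl⟩)]
    · have : n + k + j + 1 ≤ N := hN (h (.inr rfl))
      exact .inl (.inr ⟨(n, k, j), ⟨show n ≤ N by omega, show k ≤ N by omega, show j ≤ N by omega⟩, rfl⟩)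
    · exact .inr ⟨_, rfl⟩
  · obtain ⟨t, q, hq, e, a, b⟩ := partner g p N hp
    have := hg t (by
      rw [e]
      rintro _ (rfl | rfl)
      exacts [hp', fun h => hq.not_ge (hN h)])
    simp [md, a, b] at this

instance : ContinuousMul T := ⟨by
  rw [← Homeomorph.prodSumDistrib.symm.comp_continuous_iff']
  refine continuous_sum_dom.2 ⟨?_, continuous_prod_of_discrete_right.2 fun d =>
    continuous_sum_dom.2 ⟨(continuous_iff_from_nat _).2 ?_, continuous_of_discreteTopology⟩⟩
  · refine (continuous_const (y := (.inr (.inr false) : T))).congr ?_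
    rintro ⟨s, a⟩
    show _ = s * Sum.inl a
    have : ¬ E s (.inl a) := by rcases s with (_ | m) | ⟨n, k, j⟩ | _ <;> cases a <;> exact id
    simp [md, this]
  · show Tendsto (fun m : ℕ => (.inl m : T) * .inr d) atTop (𝓝 ((.inl ∞ : T) * .inr d))
    refine tendsto_const_nhds.congr' ?_
    rcases d with ⟨n, k, j⟩ | _
    · filter_upwards [eventually_ge_atTop (n + k + j + 1)] with m hm
      simp only [md, E, Sum.inr.injEq, decide_eq_decide]
      omega
    · exact Eventually.of_forall fun m => by simp [md, E]⟩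

theorem result : ∃ (S X : Type) (_ : Semigroup S) (supp : S → Set X) (x : X), SuppPerfect supp ∧
    ¬ IsOpen[semiZariski S] {f | x ∈ supp f} ∧
    ∃ τ : TopologicalSpace S, @T2Space S τ ∧ @ContinuousMul S τ _ ∧ ¬ IsOpen[τ] {f | x ∈ supp f} := by
  have h : ¬ IsOpen {f | 0 ∈ sp f} := fun h => by
    obtain ⟨m, hm⟩ := (((continuous_iff_from_nat (Sum.inl : _ → T)).1 continuous_inl).eventually
      (h.mem_nhds rfl)).exists
    exact absurd hm.1 (by norm_num)
  exact ⟨T, ℕ, inferInstance, sp, 0, perf, fun k => h (le _ k), inferInstance, inferInstance,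
    inferInstance, h⟩

end Pool.Agent.Results.MP_496bc7_gt.NotOpen
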